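import Mathlib
import Pool.Agent.W765.Sta4

/-!
Statements of the modules: stationary random closed sets `A` with `p • A ω ⊆ A (σ ω)` and
`q • A ω ⊆ A (σ ω)`.
-/

set_option autoImplicit false

open MeasureTheory Filter Topology Set

namespace Pool.Agent.Zk45.RS

open Pool.Agent.H705R2 Pool.Agent.W765.Sta

/-- (A1) almost every point of a real geometric progression (in the logarithmic coordinate) has a dense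
forward orbit. -/
def S_NULL : Prop := ∀ ρ : ℝ, 1 < ρ → ∀ κ : ℝ, κ ≠ 0 → ∀ J : Set Circ, IsOpen J → J.Nonempty →
  volume {s : ℝ | ∀ j : ℕ, ((κ * ρ ^ (s + (j : ℝ)) : ℝ) : Circ) ∉ J} = 0

/-- (A2) windows -/
def S_WIN : Prop := ∀ p q : ℕ, 2 ≤ p → p < q → MulIndep p q → ∀ J : Set Circ, IsOpen J → J.Nonempty →
  ∃ c : ℝ, 0 < c ∧ ∀ η : ℝ, 0 < η → ∀ K : ℕ, ∃ δ : ℝ, 0 < δ ∧ ∀ r : ℝ, r ≠ 0 → |r| < δ →
    ∃ n1 n2 : ℕ, K ≤ n1 ∧ (1 + c) * n1 ≤ n2 ∧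
      (({m : ℕ | n1 ≤ m ∧ m < n2 ∧ ∀ a b : ℕ, a + b = m →
        (((p : ℝ) ^ a * (q : ℝ) ^ b * r : ℝ) : Circ) ∉ J}).ncard : ℝ) ≤ η * n2

/-- (B) recurrence: a set whose points return rarely during some long windows is null -/
def S_REC : Prop := ∀ (X : Type) [MeasurableSpace X] (μ : Measure X) [IsProbabilityMeasure μ] (f : X → X),
  MeasurePreserving f μ μ → ∀ B : Set X, MeasurableSet B → ∀ c : ℝ, 0 < c →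
  (∀ x ∈ B, ∀ η : ℝ, 0 < η → ∀ K : ℕ, ∃ n1 n2 : ℕ, K ≤ n1 ∧ (1 + c) * n1 ≤ n2 ∧
    (({m : ℕ | n1 ≤ m ∧ m < n2 ∧ f^[m] x ∈ B}).ncard : ℝ) ≤ η * n2) → μ B = 0

/-- (C) the core -/
def S_CORE : Prop := ∀ (Ω : Type) [MeasurableSpace Ω] (P : Measure Ω) [IsProbabilityMeasure P] (σ : Ω → Ω),
  MeasurePreserving σ P P → ∀ p q : ℕ, 2 ≤ p → 2 ≤ q → MulIndep p q → ∀ A : Ω → Set Circ,
  (∀ ω, IsClosed (A ω)) → Hit A → (∀ ω, ∀ x ∈ A ω, p • x ∈ A (σ ω)) → (∀ ω, ∀ x ∈ A ω, q • x ∈ A (σ ω)) →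
  ∀ᵐ ω ∂P, Acc0 (A ω) → A ω = univ

/-- (D) Furstenberg's theorem for two equivariances -/
def S_STA : Prop := ∀ (Ω : Type) [MeasurableSpace Ω] (P : Measure Ω) [IsProbabilityMeasure P] (σ : Ω → Ω),
  MeasurePreserving σ P P → ∀ p q : ℕ, 2 ≤ p → 2 ≤ q → MulIndep p q → ∀ F : Ω → Set Circ,
  (∀ ω, IsClosed (F ω)) → Hit F → (∀ ω, ∀ x ∈ F ω, p • x ∈ F (σ ω)) → (∀ ω, ∀ x ∈ F ω, q • x ∈ F (σ ω)) →
  ∀ᵐ ω ∂P, (F ω).Finite ∨ F ω = univ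

end Pool.Agent.Zk45.RS
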