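import Mathlib
import Pool.Agent.Zk45.RS.Stm
import Pool.Agent.H429R2.Auto

/-!
Statements of the second round: invariant sets of the automaton.
-/

set_option autoImplicit false

open MeasureTheory Filter Topology Set

namespace Pool.Agent.Zk45.RS

open Pool.Agent.H705R2 Pool.Agent.W765.Sta Pool.Agent.H429R2.Auto

open Classical in
/-- (S1) all but a small proportion of the images under the powers of `s` of an infinite invariant set meet
given open sets. -/
def S_SETS : Prop := ∀ (W : Type) [Finite W] (U : W → Set Circ), (∀ w, IsOpen (U w)) → (∀ w, (U w).Nonempty) →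
  ∀ s c : ℕ, 1 ≤ c → (s = 2 * c ∨ s = 3 * c) → ∀ ε : ℝ, 0 < ε → ∃ R : ℕ, 0 < R ∧ ∀ Z : Set (ℤ → Circ),
    (∀ z ∈ Z, ∀ n, 2 • z (n + 1) = 3 • z n) →
    (∀ z ∈ Z, (fun n => z (n + 1)) ∈ Z ∧ (fun n => z (n - 1)) ∈ Z) → {x | ∃ z ∈ Z, z 0 = x}.Infinite →
    (((Finset.range R).filter (fun j => ∃ w, ∀ z ∈ Z, s ^ j • z 0 ∉ U w)).card : ℝ) ≤ ε * R

open Classical in
/-- (S2) every infinite invariant set `X` of the automaton (`F '' X = X`) shows all words of length `L` at all but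
`ε R` of any `R` consecutive positions. -/
def S_CONF : Prop := ∀ (L : ℕ) (ε : ℝ), 0 < ε → ∃ R : ℕ, 0 < R ∧ ∀ X : Set Conf, F '' X = X → X.Infinite →
  ∀ p : ℤ, (((Finset.range R).filter (fun j : ℕ => ∃ w : Fin L → Fin 6,
    ∀ x ∈ X, ¬ ∀ t : Fin L, x (p + j + (t : ℕ)) = w t)).card : ℝ) ≤ ε * R

end Pool.Agent.Zk45.RS
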