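import Mathlib
import Pool.Agent.Zk45.RS.Stm

set_option autoImplicit false

open MeasureTheory Filter Topology Set

namespace Pool.Agent.Zk45.RS

open Pool.Agent.H705R2 Pool.Agent.W765.Sta

lemma iter_mem {Ω : Type*} {q : ℕ} {σ : Ω → Ω} {A : Ω → Set Circ}
    (hq' : ∀ ω, ∀ x ∈ A ω, q • x ∈ A (σ ω)) (m : ℕ) :
    ∀ ω, ∀ x ∈ A ω, q ^ m • x ∈ A (σ^[m] ω) := by
  induction m with
  | zero => intro ω x hx; simpa using hx
  | succ m ih =>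
    intro ω x hx
    rw [Function.iterate_succ_apply, pow_succ, mul_smul]
    exact ih _ _ (hq' ω x hx)

lemma mem_iter {Ω : Type*} {p q : ℕ} {σ : Ω → Ω} {A : Ω → Set Circ}
    (hp' : ∀ ω, ∀ x ∈ A ω, p • x ∈ A (σ ω)) (hq' : ∀ ω, ∀ x ∈ A ω, q • x ∈ A (σ ω)) (a b : ℕ) :
    ∀ ω, ∀ x ∈ A ω, (p ^ a * q ^ b) • x ∈ A (σ^[a + b] ω) := by
  intro ω x hx
  have h1 := iter_mem hp' a ω x hx
  have h2 := iter_mem hq' b _ _ h1
  rw [← Function.iterate_add_apply, add_comm b a] at h2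
  rwa [mul_comm, mul_smul]

lemma core_lt (hW : S_WIN) (hR : S_REC) {Ω : Type} [MeasurableSpace Ω] {P : Measure Ω} [IsProbabilityMeasure P]
    {σ : Ω → Ω} (hσ : MeasurePreserving σ P P) {p q : ℕ} (hp : 2 ≤ p) (hpq : p < q) (h : MulIndep p q)
    {A : Ω → Set Circ} (hA : ∀ ω, IsClosed (A ω)) (hm : Hit A) (hp' : ∀ ω, ∀ x ∈ A ω, p • x ∈ A (σ ω))
    (hq' : ∀ ω, ∀ x ∈ A ω, q • x ∈ A (σ ω)) : ∀ᵐ ω ∂P, Acc0 (A ω) → A ω = univ := by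
  obtain ⟨b, hbc, hbe, hb⟩ := TopologicalSpace.exists_countable_basis Circ
  have hnull : ∀ V ∈ b, P {ω | Acc0 (A ω) ∧ ¬ (A ω ∩ V).Nonempty} = 0 := by
    intro V hV
    have hVo : IsOpen V := hb.isOpen hV
    have hVn : V.Nonempty := nonempty_iff_ne_empty.2 (fun h0 => hbe (h0 ▸ hV))
    obtain ⟨c, hc, hwin⟩ := hW p q hp hpq h V hVo hVn
    refine hR Ω P σ hσ _ ((measurable_acc0 hm).inter (hm V hVo).compl) c hc ?_
    rintro ω ⟨h1, h2⟩ η hη K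
    obtain ⟨δ, hδ, hw⟩ := hwin η hη K
    obtain ⟨x, hx, hx0, hxn⟩ := h1 δ hδ
    obtain ⟨r, hr, hrn, -⟩ := exists_rep x
    have hr0 : r ≠ 0 := by
      intro h0
      rw [h0, abs_zero] at hrn
      exact hx0 (norm_eq_zero.1 hrn.symm)
    obtain ⟨n1, n2, hK, hc', hcard⟩ := hw r hr0 (by rw [hrn]; exact hxn)
    refine ⟨n1, n2, hK, hc', le_trans ?_ hcard⟩
    have hfin : ({m : ℕ | n1 ≤ m ∧ m < n2 ∧ ∀ a b : ℕ, a + b = m →
        (((p : ℝ) ^ a * (q : ℝ) ^ b * r : ℝ) : Circ) ∉ V}).Finite :=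
      (Set.finite_Ico n1 n2).subset (fun m hm => ⟨hm.1, hm.2.1⟩)
    have hsub : {m : ℕ | n1 ≤ m ∧ m < n2 ∧ σ^[m] ω ∈ {ω | Acc0 (A ω) ∧ ¬ (A ω ∩ V).Nonempty}} ⊆
        {m : ℕ | n1 ≤ m ∧ m < n2 ∧ ∀ a b : ℕ, a + b = m →
        (((p : ℝ) ^ a * (q : ℝ) ^ b * r : ℝ) : Circ) ∉ V} := by
      rintro m ⟨k1, k2, k3⟩
      refine ⟨k1, k2, ?_⟩
      rintro a b rfl hmem
      refine k3.2 ⟨_, mem_iter hp' hq' a b ω x hx, ?_⟩
      rw [← hr, ← AddCircle.coe_nsmul, nsmul_eq_mul]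
      push_cast
      exact hmem
    exact_mod_cast Set.ncard_le_ncard hsub hfin
  have hall : ∀ᵐ ω ∂P, ∀ V ∈ b, ¬ (Acc0 (A ω) ∧ ¬ (A ω ∩ V).Nonempty) := by
    rw [ae_ball_iff hbc]
    intro V hV
    rw [ae_iff]
    simpa using hnull V hV
  filter_upwards [hall] with ω hω hacc
  have hd : Dense (A ω) := by
    rw [hb.dense_iff]
    intro V hV _
    by_contra hcon
    refine hω V hV ⟨hacc, ?_⟩
    rw [inter_comm]; exact hcon
  rw [← (hA ω).closure_eq]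
  exact hd.closure_eq

theorem core (hW : S_WIN) (hR : S_REC) : S_CORE := by
  intro Ω _ P _ σ hσ p q hp hq h A hA hm hp' hq'
  rcases lt_trichotomy p q with h1 | h1 | h1
  · exact core_lt hW hR hσ hp h1 h hA hm hp' hq'
  · exact absurd (h 1 1 (by rw [h1])).1 one_ne_zero
  · exact core_lt hW hR hσ hq h1 (fun m n hmn => (h n m hmn.symm).symm) hA hm hq' hp'

end Pool.Agent.Zk45.RS
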