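import Mathlib
import Pool.Agent.Zk45.RS.Core

set_option autoImplicit false

open MeasureTheory Filter Topology Set

namespace Pool.Agent.Zk45.RS

open Pool.Agent.H705R2 Pool.Agent.W765.Sta

variable {Ω : Type} [MeasurableSpace Ω]

/-- at least `k` points -/
def AtLeast (F : Ω → Set Circ) (k : ℕ) (ω : Ω) : Prop :=
  ∃ z : Fin k → Circ, Function.Injective z ∧ ∀ i, z i ∈ F ω

lemma measurable_atLeast {F : Ω → Set Circ} (hF : ∀ ω, IsClosed (F ω)) (hm : Hit F) (k : ℕ) :
    MeasurableSet {ω | AtLeast F k ω} := by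
  have heq : {ω | AtLeast F k ω} = ⋃ m : ℕ,
      {ω | ∃ z ∈ {z : Fin k → Circ | ∀ i j, i ≠ j → 1 / ((m : ℝ) + 1) ≤ dist (z i) (z j)},
        ∀ i, z i ∈ F ω} := by
    ext ω
    simp only [mem_ofPred_eq, mem_iUnion]
    constructor
    · rintro ⟨z, hz, hzF⟩
      have hpair : ∀ i j : Fin k, ∃ m : ℕ, i ≠ j → 1 / ((m : ℝ) + 1) ≤ dist (z i) (z j) := by
        intro i j
        by_cases hij : i = j
        · exact ⟨0, fun h => absurd hij h⟩
        · obtain ⟨m, hm⟩ := exists_nat_one_div_lt (dist_pos.2 (fun h => hij (hz h)))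
          exact ⟨m, fun _ => hm.le⟩
      choose mm hmm using hpair
      refine ⟨Finset.univ.sup fun i => Finset.univ.sup fun j => mm i j, z, fun i j hij => ?_, hzF⟩
      refine le_trans ?_ (hmm i j hij)
      apply one_div_le_one_div_of_le (by positivity)
      have h1 : mm i j ≤ Finset.univ.sup fun i => Finset.univ.sup fun j => mm i j :=
        (Finset.le_sup (f := fun j => mm i j) (Finset.mem_univ j)).trans
          (Finset.le_sup (f := fun i => Finset.univ.sup fun j => mm i j) (Finset.mem_univ i))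
      have h2 : (mm i j : ℝ) ≤ ((Finset.univ.sup fun i => Finset.univ.sup fun j => mm i j : ℕ) : ℝ) := by
        exact_mod_cast h1
      linarith
    · rintro ⟨m, z, hzd, hzF⟩
      refine ⟨z, ?_, hzF⟩
      intro i j hij
      by_contra hne
      have h1 := hzd i j hne
      rw [hij, dist_self] at h1
      have : (0 : ℝ) < 1 / ((m : ℝ) + 1) := by positivity
      linarith
  rw [heq]
  refine MeasurableSet.iUnion fun m => ?_
  refine measurable_exists hF hm ?_ (fun (i : Fin k) (z : Fin k → Circ) => z i) (fun i => continuous_apply i)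
  have : {z : Fin k → Circ | ∀ i j, i ≠ j → 1 / ((m : ℝ) + 1) ≤ dist (z i) (z j)} =
      ⋂ i, ⋂ j, ⋂ (_ : i ≠ j), {z : Fin k → Circ | 1 / ((m : ℝ) + 1) ≤ dist (z i) (z j)} := by
    ext z; simp
  rw [this]
  refine isClosed_iInter fun i => isClosed_iInter fun j => isClosed_iInter fun _ => ?_
  exact isClosed_le continuous_const ((continuous_apply i).dist (continuous_apply j))

lemma pow_ne {p q : ℕ} (hp : 2 ≤ p) (hq : 2 ≤ q) (h : MulIndep p q) {i j n : ℕ} (hij : i < j) (hj : j ≤ n) :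
    p ^ i * q ^ (n - i) ≠ p ^ j * q ^ (n - j) := by
  intro he
  have e1 : q ^ (n - i) = q ^ (j - i) * q ^ (n - j) := by rw [← pow_add]; congr 1; omega
  have e2 : p ^ j = p ^ i * p ^ (j - i) := by rw [← pow_add]; congr 1; omega
  rw [e1, e2] at he
  have hpi : 0 < p ^ i := by positivity
  have hqj : 0 < q ^ (n - j) := by positivity
  have h3 : q ^ (j - i) = p ^ (j - i) := by
    have h4 : p ^ i * (q ^ (j - i) * q ^ (n - j)) = p ^ i * (p ^ (j - i) * q ^ (n - j)) := by
      rw [he]; ring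
    exact Nat.eq_of_mul_eq_mul_right hqj (Nat.eq_of_mul_eq_mul_left hpi h4)
  have := (h _ _ h3.symm).1
  omega

/-- a stationary random finite set consists of torsion points -/
theorem fin_torsion {P : Measure Ω} [IsProbabilityMeasure P] {σ : Ω → Ω} (hσ : MeasurePreserving σ P P)
    {p q : ℕ} (hp : 2 ≤ p) (hq : 2 ≤ q) (h : MulIndep p q) {F : Ω → Set Circ}
    (hF : ∀ ω, IsClosed (F ω)) (hm : Hit F) (hp' : ∀ ω, ∀ x ∈ F ω, p • x ∈ F (σ ω))
    (hq' : ∀ ω, ∀ x ∈ F ω, q • x ∈ F (σ ω)) :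
    ∀ᵐ ω ∂P, (F ω).Finite → ∀ x ∈ F ω, IsOfFinAddOrder x := by
  have hrec : ∀ᵐ ω ∂P, ∀ k : ℕ, ω ∈ {ω | AtLeast F (k + 1) ω}ᶜ →
      ∃ᶠ n in atTop, σ^[n] ω ∈ {ω | AtLeast F (k + 1) ω}ᶜ := by
    rw [ae_all_iff]
    intro k
    exact hσ.conservative.ae_mem_imp_frequently_image_mem
      (measurable_atLeast hF hm (k + 1)).compl.nullMeasurableSet
  filter_upwards [hrec] with ω hω hfin x hx
  obtain ⟨k, hk⟩ : ∃ k : ℕ, ¬ AtLeast F (k + 1) ω := by
    refine ⟨hfin.toFinset.card, ?_⟩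
    rintro ⟨z, hz, hzF⟩
    have h2 : Finset.univ.image z ⊆ hfin.toFinset := by
      intro y hy
      rw [Finset.mem_image] at hy
      obtain ⟨i, -, rfl⟩ := hy
      rw [Set.Finite.mem_toFinset]
      exact hzF i
    have h3 := Finset.card_le_card h2
    rw [Finset.card_image_of_injective _ hz, Finset.card_univ, Fintype.card_fin] at h3
    omega
  obtain ⟨n, hn1, hn2⟩ := ((hω k hk).and_eventually (eventually_ge_atTop (k + 1))).exists
  have hn1' : ¬ AtLeast F (k + 1) (σ^[n] ω) := hn1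
  by_contra hcon
  apply hn1'
  refine ⟨fun i => (p ^ (i : ℕ) * q ^ (n - (i : ℕ))) • x, ?_, fun i => ?_⟩
  · have key : ∀ i j : Fin (k + 1), i < j →
        (p ^ (i : ℕ) * q ^ (n - (i : ℕ))) • x ≠ (p ^ (j : ℕ) * q ^ (n - (j : ℕ))) • x := by
      intro i j hij heq
      apply hcon
      have hj : (j : ℕ) ≤ n := by have := j.isLt; omega
      have hne := pow_ne hp hq h (show (i : ℕ) < j from hij) hj
      rw [isOfFinAddOrder_iff_zsmul_eq_zero]
      refine ⟨(p ^ (i : ℕ) * q ^ (n - (i : ℕ)) : ℕ) - (p ^ (j : ℕ) * q ^ (n - (j : ℕ)) : ℕ), ?_, ?_⟩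
      · intro h0
        exact hne (by exact_mod_cast sub_eq_zero.1 h0)
      · rw [sub_smul, natCast_zsmul, natCast_zsmul, heq, sub_self]
    intro i j hij
    rcases lt_trichotomy i j with h1 | h1 | h1
    · exact absurd hij (key i j h1)
    · exact h1
    · exact absurd hij.symm (key j i h1)
  · have h1 := mem_iter hp' hq' (i : ℕ) (n - (i : ℕ)) ω x hx
    have e : (i : ℕ) + (n - (i : ℕ)) = n := by have := i.isLt; omega
    rwa [e] at h1

end Pool.Agent.Zk45.RS
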