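import Mathlib
import Pool.Agent.Zk45.RS.Tor

set_option autoImplicit false

open MeasureTheory Filter Topology Set

namespace Pool.Agent.Zk45.RS

open Pool.Agent.H705R2 Pool.Agent.W765.Sta

variable {Ω : Type} [MeasurableSpace Ω]

lemma hit_L {F : Ω → Set Circ} (hF : ∀ ω, IsClosed (F ω)) (hm : Hit F) (τ : Circ) (r : ℕ) :
    Hit (L F τ r) := by
  refine hit_of_closed fun C hC => ?_
  have h := measurable_exists hF hm (E := C) hC (ι := Fin (r + 1))
    (fun i z => z + (i : ℕ) • τ) (fun i => by fun_prop)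
  convert h using 1
  ext ω
  constructor
  · rintro ⟨z, hz, hzC⟩
    exact ⟨z, hzC, hz⟩
  · rintro ⟨z, hzC, hz⟩
    exact ⟨z, hz, hzC⟩

/-- Lemma 2: a stationary random closed set which is infinite contains a torsion point. -/
theorem exists_torsion2 (HC : S_CORE) {p q : ℕ} (hp : 2 ≤ p) (hq : 2 ≤ q) (h : MulIndep p q) {P : Measure Ω}
    [IsProbabilityMeasure P] {σ : Ω → Ω} (hσ : MeasurePreserving σ P P) {G : Ω → Set Circ}
    (hG : ∀ ω, IsClosed (G ω)) (hm : Hit G) (hp' : ∀ ω, ∀ x ∈ G ω, p • x ∈ G (σ ω))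
    (hq' : ∀ ω, ∀ x ∈ G ω, q • x ∈ G (σ ω)) :
    ∀ᵐ ω ∂P, (G ω).Infinite → ∃ t ∈ G ω, IsOfFinAddOrder t := by
  have hcore : ∀ N : ℕ, Nat.Coprime (p * q) N → 0 < N → ∀ r : ℕ, ∀ᵐ ω ∂P,
      Acc0 (D G (tau N) r ω) → D G (tau N) r ω = univ := by
    intro N hN hN0 r
    set m := Nat.totient N with hmdef
    have hm0 : 0 < m := Nat.totient_pos.2 hN0
    have hpN : p ^ m • tau N = tau N := pow_smul_eq (Nat.Coprime.coprime_mul_right hN) (smul_tau hN0)
    have hqN : q ^ m • tau N = tau N := pow_smul_eq (Nat.Coprime.coprime_mul_left hN) (smul_tau hN0)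
    have h2p : 2 ≤ p ^ m := hp.trans (Nat.le_self_pow hm0.ne' p)
    have h2q : 2 ≤ q ^ m := hq.trans (Nat.le_self_pow hm0.ne' q)
    refine HC Ω P (σ^[m]) (hσ.iterate m) (p ^ m) (q ^ m) h2p h2q (mulIndep_pow h hm0) _ (isClosed_D hG _ _)
      (hit_D hG hm _ _) ?_ ?_
    · intro ω x hx
      exact smul_mem_D (iter_mem hp' m ω) hpN hx
    · intro ω x hx
      exact smul_mem_D (iter_mem hq' m ω) hqN hx
  have hfin : ∀ N : ℕ, Nat.Coprime (p * q) N → 0 < N → ∀ r : ℕ, ∀ᵐ ω ∂P,
      (L G (tau N) r ω).Finite → ∀ x ∈ L G (tau N) r ω, IsOfFinAddOrder x := by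
    intro N hN hN0 r
    set m := Nat.totient N with hmdef
    have hm0 : 0 < m := Nat.totient_pos.2 hN0
    have hpN : p ^ m • tau N = tau N := pow_smul_eq (Nat.Coprime.coprime_mul_right hN) (smul_tau hN0)
    have hqN : q ^ m • tau N = tau N := pow_smul_eq (Nat.Coprime.coprime_mul_left hN) (smul_tau hN0)
    have h2p : 2 ≤ p ^ m := hp.trans (Nat.le_self_pow hm0.ne' p)
    have h2q : 2 ≤ q ^ m := hq.trans (Nat.le_self_pow hm0.ne' q)
    refine fin_torsion (hσ.iterate m) h2p h2q (mulIndep_pow h hm0) (isClosed_L hG _ _) (hit_L hG hm _ _) ?_ ?_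
    · intro ω x hx
      exact smul_mem_L (iter_mem hp' m ω) hpN hx
    · intro ω x hx
      exact smul_mem_L (iter_mem hq' m ω) hqN hx
  have hall : ∀ᵐ ω ∂P, ∀ N : ℕ, ∀ r : ℕ, Nat.Coprime (p * q) N → 0 < N →
      Acc0 (D G (tau N) r ω) → D G (tau N) r ω = univ := by
    rw [ae_all_iff]; intro N
    rw [ae_all_iff]; intro r
    by_cases h1 : Nat.Coprime (p * q) N
    · by_cases h2 : 0 < N
      · filter_upwards [hcore N h1 h2 r] with ω hω _ _ using hω
      · exact Eventually.of_forall fun ω _ h3 => absurd h3 h2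
    · exact Eventually.of_forall fun ω h3 => absurd h3 h1
  have hall' : ∀ᵐ ω ∂P, ∀ N : ℕ, ∀ r : ℕ, Nat.Coprime (p * q) N → 0 < N →
      (L G (tau N) r ω).Finite → ∀ x ∈ L G (tau N) r ω, IsOfFinAddOrder x := by
    rw [ae_all_iff]; intro N
    rw [ae_all_iff]; intro r
    by_cases h1 : Nat.Coprime (p * q) N
    · by_cases h2 : 0 < N
      · filter_upwards [hfin N h1 h2 r] with ω hω _ _ using hω
      · exact Eventually.of_forall fun ω _ h3 => absurd h3 h2
    · exact Eventually.of_forall fun ω h3 => absurd h3 h1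
  filter_upwards [hall, hall'] with ω hω hω' hinf
  by_contra hcon
  push Not at hcon
  -- all the sets `L` are infinite
  have hL : ∀ N : ℕ, Nat.Coprime (p * q) N → 0 < N → ∀ r : ℕ, (L G (tau N) r ω).Infinite := by
    intro N hN hN0 r
    induction r with
    | zero =>
      have : L G (tau N) 0 ω = G ω := by
        ext y
        simp [L]
      rw [this]; exact hinf
    | succ r ih =>
      have h1 := hω N r hN hN0 (acc0_of_infinite ih)
      have h2 : tau N ∈ D G (tau N) r ω := by rw [h1]; trivial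
      obtain ⟨y, hy, y', hy', he⟩ := h2
      have hy'' : y ∈ L G (tau N) (r + 1) ω := by
        intro l
        rcases Nat.lt_or_ge (l : ℕ) (r + 1) with hl | hl
        · exact hy ⟨l, hl⟩
        · have hl' : (l : ℕ) = r + 1 := by omega
          have h3 := hy' ⟨r, by omega⟩
          have h4 : y + (l : ℕ) • tau N = y' + (r : ℕ) • tau N := by
            rw [hl', succ_nsmul]
            have : y' = y + tau N := by rw [he]; abel
            rw [this]; abel
          rw [h4]; exact h3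
      intro hf
      have h0 := hy'' 0
      have : y ∈ G ω := by simpa using h0
      exact hcon y this (hω' N (r + 1) hN hN0 hf y hy'')
  -- hence the set is dense
  have hdense : Dense (G ω) := by
    rw [Metric.dense_iff]
    intro z ε hε
    obtain ⟨n, hn⟩ := exists_nat_one_div_lt hε
    obtain ⟨N, hN1, hN2⟩ : ∃ N : ℕ, n + 1 ≤ N ∧ Nat.Coprime (p * q) N := by
      refine ⟨p * q * (n + 1) + 1, by nlinarith [Nat.mul_le_mul hp hq], ?_⟩
      rw [mul_comm (p * q) (n + 1)]
      simp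
    have hN0 : 0 < N := by omega
    obtain ⟨y, hy⟩ := (hL N hN2 hN0 (N - 1)).nonempty
    obtain ⟨s, hs⟩ := QuotientAddGroup.mk_surjective (z - y)
    have hNR : (0 : ℝ) < N := by exact_mod_cast hN0
    set f := Int.fract s with hf
    have hfs : ((f : ℝ) : Circ) = z - y := by
      rw [← hs, hf]
      change ((Int.fract s : ℝ) : Circ) = (s : Circ)
      rw [← Int.self_sub_floor, AddCircle.coe_sub]
      have h2 : (((⌊s⌋ : ℤ) : ℝ) : Circ) = 0 := by
        rw [AddCircle.coe_eq_zero_iff]; exact ⟨⌊s⌋, by simp⟩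
      rw [h2, sub_zero]
    have hf0 : 0 ≤ f := Int.fract_nonneg s
    have hf1 : f < 1 := Int.fract_lt_one s
    set l := ⌊f * N⌋₊ with hl
    have hl1 : (l : ℝ) ≤ f * N := Nat.floor_le (by positivity)
    have hl2 : f * N < l + 1 := Nat.lt_floor_add_one _
    have hlN : l < N := by
      have : (l : ℝ) < N := lt_of_le_of_lt hl1 (by nlinarith)
      exact_mod_cast this
    refine ⟨y + l • tau N, ?_, hy ⟨l, by omega⟩⟩
    rw [Metric.mem_ball, dist_comm, dist_eq_norm]
    have h5 : z - (y + l • tau N) = ((f - l / N : ℝ) : Circ) := by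
      rw [AddCircle.coe_sub, hfs]
      unfold tau
      rw [← AddCircle.coe_nsmul, nsmul_eq_mul, mul_one_div]
      abel
    rw [h5]
    have h6 : ‖((f - l / N : ℝ) : Circ)‖ ≤ |f - l / N| := by
      have := Pool.Agent.H847R3.XpXq.dist_coe_le (f - l / N) 0
      rw [AddCircle.coe_zero, dist_zero_right, sub_zero] at this
      exact this
    have h7 : |f - l / N| ≤ 1 / N := by
      rw [abs_of_nonneg (by rw [sub_nonneg, div_le_iff₀ hNR]; exact hl1)]
      rw [sub_le_iff_le_add, ← add_div, le_div_iff₀ hNR]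
      linarith
    have h8 : 1 / (N : ℝ) ≤ 1 / ((n : ℝ) + 1) :=
      one_div_le_one_div_of_le (by positivity) (by exact_mod_cast hN1)
    linarith
  have huniv : G ω = univ := by
    rw [← (hG ω).closure_eq]; exact hdense.closure_eq
  exact hcon 0 (by rw [huniv]; trivial) (IsOfFinAddOrder.zero)

/-- Lemma 1: a stationary random closed set which accumulates at a fixed torsion point of order
prime to `p q` is everything. -/
theorem acc_torsion2 (HC : S_CORE) {p q : ℕ} (hp : 2 ≤ p) (hq : 2 ≤ q) (h : MulIndep p q) {P : Measure Ω}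
    [IsProbabilityMeasure P] {σ : Ω → Ω} (hσ : MeasurePreserving σ P P) {F : Ω → Set Circ}
    (hF : ∀ ω, IsClosed (F ω)) (hm : Hit F) (hp' : ∀ ω, ∀ x ∈ F ω, p • x ∈ F (σ ω))
    (hq' : ∀ ω, ∀ x ∈ F ω, q • x ∈ F (σ ω)) {d : ℕ} (hd0 : 0 < d) (hd : Nat.Coprime (p * q) d)
    {t : Circ} (ht : d • t = 0) : ∀ᵐ ω ∂P, t ∈ Der F ω → F ω = univ := by
  set m := Nat.totient d with hmdef
  have hm0 : 0 < m := Nat.totient_pos.2 hd0
  have hpt : p ^ m • t = t := pow_smul_eq (Nat.Coprime.coprime_mul_right hd) ht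
  have hqt : q ^ m • t = t := pow_smul_eq (Nat.Coprime.coprime_mul_left hd) ht
  have h2p : 2 ≤ p ^ m := hp.trans (Nat.le_self_pow hm0.ne' p)
  have h2q : 2 ≤ q ^ m := hq.trans (Nat.le_self_pow hm0.ne' q)
  have hcont : Continuous (fun u : Circ => u + t) := by fun_prop
  have hA : ∀ ω, IsClosed ((fun u : Circ => u + t) ⁻¹' F ω) := fun ω => (hF ω).preimage hcont
  have hmA : Hit (fun ω => (fun u : Circ => u + t) ⁻¹' F ω) := by
    intro V hV
    have : {ω | ((fun u : Circ => u + t) ⁻¹' F ω ∩ V).Nonempty} =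
        {ω | (F ω ∩ (fun u : Circ => u - t) ⁻¹' V).Nonempty} := by
      ext ω
      constructor
      · rintro ⟨u, hu, huV⟩
        exact ⟨u + t, hu, by simpa using huV⟩
      · rintro ⟨u, hu, huV⟩
        exact ⟨u - t, by simpa using hu, huV⟩
    rw [this]
    exact hm _ (hV.preimage (by fun_prop))
  have hc := HC Ω P (σ^[m]) (hσ.iterate m) (p ^ m) (q ^ m) h2p h2q (mulIndep_pow h hm0) _ hA hmA ?_ ?_
  · filter_upwards [hc] with ω hω htF
    have hacc : Acc0 ((fun u : Circ => u + t) ⁻¹' F ω) := by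
      intro ε hε
      obtain ⟨x, hx, hxt, hd⟩ := htF ε hε
      refine ⟨x - t, by simpa using hx, sub_ne_zero.2 hxt, ?_⟩
      rwa [← dist_eq_norm]
    have h1 := hω hacc
    refine eq_univ_of_forall fun y => ?_
    have : y - t ∈ (fun u : Circ => u + t) ⁻¹' F ω := by rw [h1]; trivial
    simpa using this
  · intro ω x hx
    have := iter_mem hp' m ω _ hx
    simp only [mem_preimage] at this ⊢
    rwa [smul_add, hpt] at this
  · intro ω x hx
    have := iter_mem hq' m ω _ hx
    simp only [mem_preimage] at this ⊢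
    rwa [smul_add, hqt] at this

/-- Furstenberg's theorem for stationary random closed sets. -/
theorem stationary2 (HC : S_CORE) {p q : ℕ} (hp : 2 ≤ p) (hq : 2 ≤ q) (h : MulIndep p q) {P : Measure Ω}
    [IsProbabilityMeasure P] {σ : Ω → Ω} (hσ : MeasurePreserving σ P P) {F : Ω → Set Circ}
    (hF : ∀ ω, IsClosed (F ω)) (hm : Hit F) (hp' : ∀ ω, ∀ x ∈ F ω, p • x ∈ F (σ ω))
    (hq' : ∀ ω, ∀ x ∈ F ω, q • x ∈ F (σ ω)) : ∀ᵐ ω ∂P, (F ω).Finite ∨ F ω = univ := by
  have hD1 : ∀ ω, ∀ x ∈ Der F ω, p • x ∈ Der F (σ ω) := fun ω x hx =>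
    smul_mem_Der (by omega) (hp' ω) hx
  have hD2 : ∀ ω, ∀ x ∈ Der F ω, q • x ∈ Der F (σ ω) := fun ω x hx =>
    smul_mem_Der (by omega) (hq' ω) hx
  have e1 := exists_torsion2 HC hp hq h hσ (isClosed_Der F) (hit_Der hF hm) hD1 hD2
  have e1' := fin_torsion hσ hp hq h (isClosed_Der F) (hit_Der hF hm) hD1 hD2
  -- the full set
  set T : Set Ω := {ω | F ω = univ} with hT
  have hTm : MeasurableSet T := by
    obtain ⟨b, hbc, hbe, hb⟩ := TopologicalSpace.exists_countable_basis Circ
    have : T = ⋂ V ∈ b, {ω | (F ω ∩ V).Nonempty} := by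
      ext ω
      simp only [hT, mem_ofPred_eq, mem_iInter]
      constructor
      · intro h1 V hV
        rw [h1, univ_inter]
        exact nonempty_iff_ne_empty.2 (fun h0 => hbe (h0 ▸ hV))
      · intro h1
        have hd : Dense (F ω) := by
          rw [hb.dense_iff]
          intro V hV _
          rw [inter_comm]; exact h1 V hV
        rw [← (hF ω).closure_eq]; exact hd.closure_eq
    rw [this]
    exact MeasurableSet.biInter hbc fun V hV => hm V (hb.isOpen hV)
  have hTsub : T ⊆ σ ⁻¹' T := by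
    intro ω hω
    have hω' : F ω = univ := hω
    change F (σ ω) = univ
    refine eq_univ_of_forall fun y => ?_
    obtain ⟨z, hz⟩ : ∃ z : Circ, q • z = y := by
      obtain ⟨r, rfl⟩ := QuotientAddGroup.mk_surjective y
      refine ⟨((r / q : ℝ) : Circ), ?_⟩
      rw [← AddCircle.coe_nsmul, nsmul_eq_mul]
      have : (q : ℝ) ≠ 0 := by positivity
      congr 1
      field_simp
    rw [← hz]
    exact hq' ω z (by rw [hω']; trivial)
  have hTback : ∀ᵐ ω ∂P, σ ω ∈ T → ω ∈ T := by
    have h1 : P (σ ⁻¹' T \ T) = 0 := by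
      rw [measure_sdiff hTsub hTm.nullMeasurableSet (measure_ne_top P T),
        hσ.measure_preimage hTm.nullMeasurableSet, tsub_self]
    rw [ae_iff]
    refine measure_mono_null ?_ h1
    intro ω hω
    simp only [mem_ofPred_eq, Classical.not_imp] at hω
    exact hω
  have hTback' : ∀ᵐ ω ∂P, ∀ a : ℕ, σ^[a] ω ∈ T → ω ∈ T := by
    rw [ae_all_iff]
    intro a
    induction a with
    | zero => exact Eventually.of_forall fun ω hω => hω
    | succ a ih =>
      have h2 := (hσ.iterate a).quasiMeasurePreserving.ae hTback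
      filter_upwards [ih, h2] with ω h3 h4 h5
      rw [Function.iterate_succ_apply'] at h5
      exact h3 (h4 h5)
  -- torsion points
  have e2 : ∀ᵐ ω ∂P, ∀ a : ℕ, ∀ t ∈ {w : Circ | IsOfFinAddOrder w}, ∀ d : ℕ, 0 < d →
      Nat.Coprime (p * q) d → d • t = 0 → t ∈ Der F (σ^[a] ω) → F (σ^[a] ω) = univ := by
    rw [ae_all_iff]; intro a
    rw [ae_ball_iff torsion_countable]; intro t _
    rw [ae_all_iff]; intro d
    by_cases h1 : 0 < d
    · by_cases h2 : Nat.Coprime (p * q) d
      · by_cases h3 : d • t = 0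
        · have h4 := acc_torsion2 HC hp hq h hσ hF hm hp' hq' h1 h2 h3
          have h5 := (hσ.iterate a).quasiMeasurePreserving.ae h4
          filter_upwards [h5] with ω hω _ _ _ using hω
        · exact Eventually.of_forall fun ω _ _ h4 => absurd h4 h3
      · exact Eventually.of_forall fun ω _ h3 => absurd h3 h2
    · exact Eventually.of_forall fun ω h3 => absurd h3 h1
  filter_upwards [e1, e2, hTback', e1'] with ω h1 h2 h3 h1' 
  by_cases hfin : (F ω).Finite
  · left; exact hfin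
  right
  -- a torsion point in the derived set
  obtain ⟨t, htD, ht⟩ : ∃ t ∈ Der F ω, IsOfFinAddOrder t := by
    by_cases hDinf : (Der F ω).Infinite
    · exact h1 hDinf
    · rw [Set.not_infinite] at hDinf
      obtain ⟨z, -, hz⟩ := Set.Infinite.exists_accPt_of_subset_isCompact (s := F ω)
        (K := univ) hfin isCompact_univ (subset_univ _)
      have hzD : z ∈ Der F ω := mem_Der_of_accPt Subset.rfl hz
      exact ⟨z, hzD, h1' hDinf z hzD⟩
  obtain ⟨a, d, hd1, hd2, hd3⟩ := Pool.Agent.H847R3.XpXq.exists_coprime (m := p * q)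
    (by nlinarith) ht
  have h4 : ((p * q) ^ a) • t ∈ Der F (σ^[a + a] ω) := by
    rw [mul_pow]
    exact mem_iter hD1 hD2 a a ω t htD
  have h7 : IsOfFinAddOrder (((p * q) ^ a) • t) :=
    isOfFinAddOrder_iff_nsmul_eq_zero.2 ⟨d, by omega, hd2⟩
  exact h3 (a + a) (h2 (a + a) _ h7 d (by omega) hd3 hd2 h4)


theorem sta (HC : S_CORE) : S_STA := by
  intro Ω _ P _ σ hσ p q hp hq h F hF hm hp' hq'
  exact stationary2 HC hp hq h hσ hF hm hp' hq'

end Pool.Agent.Zk45.RS
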