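import Mathlib
import Pool.Agent.Zk45.RS.Sta
import Pool.Agent.Zk45.Syn.Core
import Pool.Agent.W765.KB2

/-!
The random closed set of the limits: a function of the sequence of letters.
-/

set_option autoImplicit false
set_option linter.unusedSectionVars false

open MeasureTheory Filter Topology Set

namespace Pool.Agent.Zk45.RS

open Pool.Agent.H705R2 Pool.Agent.W765.Sta Pool.Agent.Zk45.Syn

variable {W : Type} [TopologicalSpace W] [DiscreteTopology W] [Finite W]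
variable {s : ℕ} {ξ : ℕ → ℝ} {K : ℕ → ℕ} {ω : ℕ → ℕ → W}

/-- the shift -/
def sh (c : ℕ → W) : ℕ → W := fun i => c (i + 1)

lemma continuous_sh : Continuous (sh : (ℕ → W) → (ℕ → W)) := by unfold sh; fun_prop

lemma sh_iter (n : ℕ) (c : ℕ → W) : (sh^[n] c) = fun i => c (i + n) := by
  induction n generalizing c with
  | zero => rfl
  | succ n ih =>
    rw [Function.iterate_succ_apply, ih]
    funext i
    unfold sh
    congr 1

/-- the random set -/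
def Fib (s : ℕ) (ξ : ℕ → ℝ) (K : ℕ → ℕ) (ω : ℕ → ℕ → W) (c : ℕ → W) : Set Circ :=
  (fun a : St W => a.1 0) '' (Y s ξ K ω ∩ {a | a.2 = c})

lemma isClosed_Fib (c : ℕ → W) : IsClosed (Fib s ξ K ω c) := by
  have h : IsClosed {a : St W | a.2 = c} := isClosed_eq continuous_snd continuous_const
  exact ((isClosed_Y.inter h).isCompact.image (by fun_prop)).isClosed

lemma hit_Fib [MeasurableSpace (ℕ → W)] [BorelSpace (ℕ → W)] : Hit (Fib s ξ K ω) := by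
  refine hit_of_closed fun C hC => ?_
  have h : {c | (Fib s ξ K ω c ∩ C).Nonempty} = (fun a : St W => a.2) '' (Y s ξ K ω ∩ {a | a.1 0 ∈ C}) := by
    ext c
    constructor
    · rintro ⟨x, ⟨a, ⟨ha, ha2⟩, rfl⟩, hx⟩
      exact ⟨a, ⟨ha, hx⟩, ha2⟩
    · rintro ⟨a, ⟨ha, hx⟩, hac⟩
      exact ⟨a.1 0, ⟨a, ⟨ha, hac⟩, rfl⟩, hx⟩
  rw [h]
  have h2 : IsClosed {a : St W | a.1 0 ∈ C} := hC.preimage (f := fun a : St W => a.1 0) (by fun_prop)
  exact ((isClosed_Y.inter h2).isCompact.image continuous_snd).isClosed.measurableSet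

lemma Fib_equi {c : ℕ} (hs : s = 2 * c ∨ s = 3 * c) (u : ℕ → W) (x : Circ) (hx : x ∈ Fib s ξ K ω u) :
    (3 * c) • x ∈ Fib s ξ K ω (sh u) ∧ (2 * c) • x ∈ Fib s ξ K ω (sh u) := by
  obtain ⟨a, ⟨ha, hau⟩, rfl⟩ := hx
  have hau' : a.2 = u := hau
  simp only
  rcases hs with hs | hs
  · constructor
    · refine ⟨sg s (tp a), ⟨sg_mem (tp_mem ha), ?_⟩, ?_⟩
      · show (fun i => a.2 (i + 1)) = sh u
        rw [hau']; rfl
      · have h1 := rel ha 0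
        rw [zero_add] at h1
        show s • a.1 (0 + 1) = _
        rw [zero_add, hs, mul_comm 2 c, mul_nsmul', h1, ← mul_nsmul', mul_comm]
    · refine ⟨sg s a, ⟨sg_mem ha, ?_⟩, by show s • a.1 0 = _; rw [hs]⟩
      show (fun i => a.2 (i + 1)) = sh u
      rw [hau']; rfl
  · constructor
    · refine ⟨sg s a, ⟨sg_mem ha, ?_⟩, by show s • a.1 0 = _; rw [hs]⟩
      show (fun i => a.2 (i + 1)) = sh u
      rw [hau']; rfl
    · refine ⟨sg s (tm a), ⟨sg_mem (tm_mem ha), ?_⟩, ?_⟩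
      · show (fun i => a.2 (i + 1)) = sh u
        rw [hau']; rfl
      · have h1 := rel ha (-1)
        rw [neg_add_cancel] at h1
        show s • a.1 (0 - 1) = _
        rw [zero_sub, hs, mul_comm 3 c, mul_nsmul', ← h1, ← mul_nsmul', mul_comm]

lemma sg_iter2 {a : St W} (ha : a ∈ Y s ξ K ω) (M : ℕ) : ∃ a' ∈ Y s ξ K ω,
    (∀ n, a'.1 n = (s ^ M) • a.1 n) ∧ a'.2 = fun i => a.2 (i + M) := by
  induction M with
  | zero => exact ⟨a, ha, fun n => by simp, rfl⟩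
  | succ M ih =>
    obtain ⟨a', h1, h2, h3⟩ := ih
    refine ⟨sg s a', sg_mem h1, fun n => ?_, ?_⟩
    · show s • a'.1 n = _
      rw [h2, pow_succ', mul_nsmul']
    · show (fun i => a'.2 (i + 1)) = _
      rw [h3]
      funext i
      show a.2 (i + 1 + M) = a.2 (i + (M + 1))
      rw [show i + 1 + M = i + (M + 1) by ring]

lemma tm_iter2 {a : St W} (ha : a ∈ Y s ξ K ω) (M : ℕ) : ∃ a' ∈ Y s ξ K ω,
    (∀ n, a'.1 n = a.1 (n - M)) ∧ a'.2 = a.2 := by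
  induction M with
  | zero => exact ⟨a, ha, fun n => by simp, rfl⟩
  | succ M ih =>
    obtain ⟨a', h1, h2, h3⟩ := ih
    refine ⟨tm a', tm_mem h1, fun n => ?_, h3⟩
    show a'.1 (n - 1) = _
    rw [h2, show n - 1 - (M : ℤ) = n - ((M + 1 : ℕ) : ℤ) by push_cast; ring]

/-- the case of the full circle: sequences of the form `r (3/2)^i` -/
lemma full {c : ℕ} (hc : 1 ≤ c) (hs : s = 2 * c ∨ s = 3 * c) (r : ℝ) (M : ℕ) (u : ℕ → W)
    (hu : Fib s ξ K ω u = univ) : ∃ a ∈ Y s ξ K ω, (∀ i : ℕ, i ≤ M → a.1 i = ((r * (3 / 2) ^ i : ℝ) : Circ)) ∧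
      a.2 = fun i => u (i + M) := by
  have hc0 : (c : ℝ) ≠ 0 := by
    have : (1 : ℝ) ≤ c := by exact_mod_cast hc
    positivity
  rcases hs with hs | hs
  · have h1 : (((r / (s : ℝ) ^ M : ℝ)) : Circ) ∈ Fib s ξ K ω u := by rw [hu]; trivial
    obtain ⟨a, ⟨ha, hau⟩, ha0⟩ := h1
    have hau' : a.2 = u := hau
    obtain ⟨a', ha', h2, h22⟩ := sg_iter2 ha M
    refine ⟨a', ha', fun i hi => ?_, by rw [h22, hau']⟩
    have h3 := rel_iter ha 0 i
    rw [zero_add] at h3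
    have e : s ^ M = (c ^ M * 2 ^ (M - i)) * 2 ^ i := by
      rw [mul_assoc, ← pow_add, Nat.sub_add_cancel hi, hs, mul_pow, mul_comm]
    have ha0' : a.1 0 = (((r / (s : ℝ) ^ M : ℝ)) : Circ) := ha0
    rw [h2, e, mul_nsmul', h3, ha0', ← AddCircle.coe_nsmul, ← AddCircle.coe_nsmul]
    congr 1
    rw [nsmul_eq_mul, nsmul_eq_mul, hs]
    push_cast
    have e2 : (2 : ℝ) ^ M = 2 ^ (M - i) * 2 ^ i := by rw [← pow_add, Nat.sub_add_cancel hi]
    rw [mul_pow, e2, div_pow]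
    field_simp
  · have h1 : (((r * (3 / 2) ^ M / (s : ℝ) ^ M : ℝ)) : Circ) ∈ Fib s ξ K ω u := by rw [hu]; trivial
    obtain ⟨a0, ⟨ha0, hau⟩, h00⟩ := h1
    have hau' : a0.2 = u := hau
    obtain ⟨a, ha, h01, h02⟩ := tm_iter2 ha0 M
    obtain ⟨a', ha', h2, h22⟩ := sg_iter2 ha M
    refine ⟨a', ha', fun i hi => ?_, by rw [h22, h02, hau']⟩
    have h3 := rel_iter ha i (M - i)
    have e0 : (i : ℤ) + ((M - i : ℕ) : ℤ) = M := by omega
    rw [e0, h01, sub_self] at h3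
    have e : s ^ M = (c ^ M * 3 ^ i) * 3 ^ (M - i) := by
      rw [mul_assoc, ← pow_add, Nat.add_sub_cancel' hi, hs, mul_pow, mul_comm]
    have h00' : a0.1 0 = (((r * (3 / 2) ^ M / (s : ℝ) ^ M : ℝ)) : Circ) := h00
    rw [h2, e, mul_nsmul', ← h3, h00', ← AddCircle.coe_nsmul, ← AddCircle.coe_nsmul]
    congr 1
    rw [nsmul_eq_mul, nsmul_eq_mul, hs]
    push_cast
    have e2 : (2 : ℝ) ^ M = 2 ^ (M - i) * 2 ^ i := by rw [← pow_add, Nat.sub_add_cancel hi]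
    rw [mul_pow, div_pow, div_pow, e2]
    field_simp

/-- the arithmetic of the finite case -/
lemma contr {x : ℝ} (hx : 0 < x) {b : ℕ} (hb1 : 1 ≤ b) {k m Kk : ℕ} (hKk : k ≤ Kk) (hmk : 2 * m ≤ k)
    (h1 : 2 ^ k * x ≤ 2 ^ Kk) (h2 : (3 / 2) ^ k ≤ x * (3 / 2) ^ Kk)
    (hk : (2 * 2 ^ (2 * m) * (b * (3 / 2) ^ m) : ℝ) < 2 ^ k)
    (h : ∀ t : ℕ, m ≤ t → t ≤ Kk - m → |(b * x) * (3 / 2) ^ t - round ((b * x) * (3 / 2) ^ t)| < 1 / 5) :
    False := by
  have hb0 : (1 : ℝ) ≤ b := by exact_mod_cast hb1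
  have e1 : Kk = (Kk - m) + m := by omega
  rcases near (b * x) m (Kk - m) (by omega) h with h3 | h3
  · have h5 : (3 / 2 : ℝ) ^ m ≤ (3 / 2) ^ k := pow_le_pow_right₀ (by norm_num) (by omega)
    rw [e1, pow_add] at h2
    have h6 : (0 : ℝ) < (3 / 2) ^ m := by positivity
    have h7 : 1 ≤ x * (3 / 2) ^ (Kk - m) := by
      by_contra h8
      push Not at h8
      nlinarith
    rw [abs_of_pos (by positivity)] at h3
    nlinarith
  · have h5 : (2 : ℝ) ^ k ≤ 2 ^ Kk := pow_le_pow_right₀ (by norm_num) hKk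
    rw [abs_of_pos (by positivity)] at h3
    have e2 : (2 : ℝ) ^ Kk = 2 ^ (Kk - m) * 2 ^ m := by rw [← pow_add]; congr 1
    have h7 : (0 : ℝ) < 2 ^ m := by positivity
    have h8 : (2 : ℝ) ^ Kk ≤ 2 ^ m * (b * x * (3 / 2) ^ m + 1) * 2 ^ m := by
      rw [e2]
      exact mul_le_mul_of_nonneg_right h3 h7.le
    have h9 : (1 : ℝ) ≤ b * (3 / 2) ^ m := by
      have : (1 : ℝ) ≤ (3 / 2) ^ m := one_le_pow₀ (by norm_num)
      nlinarith
    have e3 : (2 : ℝ) ^ (2 * m) = 2 ^ m * 2 ^ m := by rw [← pow_add]; congr 1; ring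
    rw [e3] at hk
    have h10 : (2 : ℝ) ^ k * (x + 1) ≤ 2 * (2 ^ m * (b * x * (3 / 2) ^ m + 1) * 2 ^ m) := by
      nlinarith
    have h11 : b * x * (3 / 2) ^ m + 1 ≤ (b * (3 / 2) ^ m) * (x + 1) := by nlinarith
    have h12 : (2 : ℝ) ^ k * (x + 1) ≤ 2 * (2 ^ m * 2 ^ m) * (b * (3 / 2) ^ m) * (x + 1) := by
      have : (2 : ℝ) ^ m * (b * x * (3 / 2) ^ m + 1) * 2 ^ m ≤
          2 ^ m * ((b * (3 / 2) ^ m) * (x + 1)) * 2 ^ m := by gcongr
      nlinarith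
    have h13 : (2 : ℝ) ^ k ≤ 2 * (2 ^ m * 2 ^ m) * (b * (3 / 2) ^ m) :=
      le_of_mul_le_mul_right h12 (by linarith)
    linarith

end Pool.Agent.Zk45.RS
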