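import Mathlib
import Pool.Agent.Zk45.RS.Den1

/-!
Density version of the theorem of `Zk45/Syn`.
-/

set_option autoImplicit false
set_option linter.unusedSectionVars false

open MeasureTheory Filter Topology Set

namespace Pool.Agent.Zk45.RS

open Pool.Agent.H705R2 Pool.Agent.W765.Sta Pool.Agent.Zk45.Syn

variable {W : Type} [TopologicalSpace W] [DiscreteTopology W] [Finite W]
variable {s : ℕ} {ξ : ℕ → ℝ} {K : ℕ → ℕ} {ω : ℕ → ℕ → W}

/-- a finite fibre consisting of torsion points is impossible -/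
lemma not_finite (hs1 : 1 ≤ s) (hξ : ∀ k, 0 < ξ k) (hK : ∀ k, k ≤ K k)
    (hK1 : ∀ k j, j ≤ k → 2 ^ k * ((s : ℝ) ^ j * ξ k) ≤ 2 ^ (K k))
    (hK2 : ∀ k, (3 / 2) ^ k ≤ ξ k * (3 / 2) ^ (K k)) {a0 : St W} (ha0 : a0 ∈ Y s ξ K ω)
    (hfin : (Fib s ξ K ω a0.2).Finite) (htor : ∀ x ∈ Fib s ξ K ω a0.2, IsOfFinAddOrder x) : False := by
  -- common order
  obtain ⟨b, hb1, hb2⟩ : ∃ b : ℕ, 1 ≤ b ∧ ∀ x ∈ Fib s ξ K ω a0.2, b • x = 0 := by
    have h1 : ∀ x ∈ Fib s ξ K ω a0.2, ∃ b : ℕ, 1 ≤ b ∧ b • x = 0 := by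
      intro x hx
      obtain ⟨n, hn, hn0⟩ := isOfFinAddOrder_iff_nsmul_eq_zero.1 (htor x hx)
      exact ⟨n, hn, hn0⟩
    choose! b hb1 hb2 using h1
    refine ⟨∏ x ∈ hfin.toFinset, b x, ?_, ?_⟩
    · exact Finset.prod_pos fun x hx => Nat.lt_of_lt_of_le Nat.zero_lt_one (hb1 x (hfin.mem_toFinset.1 hx))
    · intro x hx
      obtain ⟨d, hd⟩ := Finset.dvd_prod_of_mem b (hfin.mem_toFinset.2 hx)
      rw [hd, mul_comm, mul_nsmul', hb2 x hx, nsmul_zero]
  -- neighbourhoods of the sequence of letters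
  set C : Set (St W) := {a : St W | 1 / 5 ≤ ‖b • a.1 0‖} with hCdef
  have hC : IsClosed C := isClosed_le (by fun_prop) (by fun_prop)
  set N : ℕ → Set (St W) := fun m => {a : St W | ∀ i, i < m → a.2 i = a0.2 i} with hN
  have hNcl : ∀ m, IsClosed (N m) := by
    intro m
    have : N m = ⋂ i, ⋂ (_ : i < m), {a : St W | a.2 i = a0.2 i} := by ext a; simp [hN]
    rw [this]
    exact isClosed_iInter fun i => isClosed_iInter fun _ => isClosed_eq (by fun_prop) (by fun_prop)
  have hNop : ∀ m, IsOpen (N m) := by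
    intro m
    have : N m = ⋂ i ∈ Finset.range m, {a : St W | a.2 i = a0.2 i} := by
      ext a; simp [hN]
    rw [this]
    refine isOpen_biInter_finset fun i _ => ?_
    exact (isOpen_discrete {a0.2 i}).preimage (f := fun a : St W => a.2 i) (by fun_prop)
  have hNanti : ∀ m, N (m + 1) ⊆ N m := fun m a ha i hi => ha i (by omega)
  obtain ⟨m, hm⟩ : ∃ m, ¬ (E s ξ K ω m ∩ (N m ∩ C)).Nonempty := by
    by_contra hcon
    push Not at hcon
    have h1 : (⋂ m, closure (E s ξ K ω m ∩ (N m ∩ C))).Nonempty := by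
      apply IsCompact.nonempty_iInter_of_sequence_nonempty_isCompact_isClosed
      · intro m
        exact closure_mono (inter_subset_inter (E_anti (Nat.le_succ m))
          (inter_subset_inter (hNanti m) Subset.rfl))
      · intro m
        exact (hcon m).closure
      · exact isClosed_closure.isCompact
      · intro m
        exact isClosed_closure
    obtain ⟨a, ha⟩ := h1
    rw [mem_iInter] at ha
    have haY : a ∈ Y s ξ K ω := by
      rw [Y, mem_iInter]
      exact fun m => closure_mono inter_subset_left (ha m)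
    have haN : ∀ m, a ∈ N m := fun m =>
      closure_minimal (inter_subset_right.trans inter_subset_left) (hNcl m) (ha m)
    have haC : a ∈ C := closure_minimal (inter_subset_right.trans inter_subset_right) hC (ha 0)
    have h2 : a.2 = a0.2 := funext fun i => haN (i + 1) i (Nat.lt_succ_self i)
    have h3 : b • a.1 0 = 0 := hb2 _ ⟨a, ⟨haY, h2⟩, rfl⟩
    rw [hCdef, mem_ofPred_eq, h3, norm_zero] at haC
    norm_num at haC
  obtain ⟨k0, hk0⟩ := pow_unbounded_of_one_lt (2 * 2 ^ (2 * m) * (b * (3 / 2) ^ m) : ℝ) (by norm_num : (1 : ℝ) < 2)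
  set m' := max k0 (2 * m) with hm'
  -- a point of the orbit near `a0`
  have h1 : a0 ∈ closure (E s ξ K ω m') := mem_iInter.1 ha0 m'
  obtain ⟨a, ⟨haN, k, j, t, e1, e2, e3, rfl⟩⟩ := mem_closure_iff.1 h1 (N m) (hNop m) (fun i _ => rfl)
  have hkk : k0 ≤ k := by have := le_max_left k0 (2 * m); omega
  have hmk : 2 * m ≤ k := by have := le_max_right k0 (2 * m); omega
  have hjm : j + m ≤ k := by have := le_max_right k0 (2 * m); omega
  have hKk := hK k
  have hs0 : (1 : ℝ) ≤ s := by exact_mod_cast hs1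
  have hsj : (1 : ℝ) ≤ (s : ℝ) ^ j := one_le_pow₀ hs0
  have hξ0 := hξ k
  refine contr (x := (s : ℝ) ^ j * ξ k) (by positivity) hb1 (k := k) (m := m) (Kk := K k) hKk hmk
    (hK1 k j (by omega)) ?_ ?_ ?_
  · refine (hK2 k).trans ?_
    have : ξ k ≤ (s : ℝ) ^ j * ξ k := by nlinarith
    exact mul_le_mul_of_nonneg_right this (by positivity)
  · exact hk0.trans_le (pow_le_pow_right₀ (by norm_num) hkk)
  · intro t' h3 h4
    by_contra h5
    apply hm
    refine ⟨elt s ξ ω k j t', ⟨k, j, t', hjm, h3, by omega, rfl⟩, fun i hi => haN i hi, ?_⟩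
    rw [hCdef, mem_ofPred_eq]
    unfold elt
    simp only
    rw [← AddCircle.coe_nsmul, UnitAddCircle.norm_eq, zero_add, zpow_natCast,
      nsmul_eq_mul, ← mul_assoc]
    exact not_lt.1 h5

end Pool.Agent.Zk45.RS
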