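import Mathlib
import Pool.Agent.Zk45.RS.Den2

/-!
Density version of the theorem of `Zk45/Syn`: all but a small proportion of the numbers `s^j ξ` visit
given open sets under the powers of `3/2`.
-/

set_option autoImplicit false
set_option linter.unusedSectionVars false

open MeasureTheory Filter Topology Set

namespace Pool.Agent.Zk45.RS

open Pool.Agent.H705R2 Pool.Agent.W765.Sta Pool.Agent.Zk45.Syn
open Pool.Agent.H847R3.XpXq (TT)

section
variable {V : Type} [TopologicalSpace V] [DiscreteTopology V] [Finite V]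
variable {s : ℕ} {ξ : ℕ → ℝ} {K : ℕ → ℕ} {ω : ℕ → ℕ → V}

open Classical in
theorem stat (HS : S_STA) {c : ℕ} (hc : 1 ≤ c) (hs : s = 2 * c ∨ s = 3 * c) (hξ : ∀ k, 0 < ξ k)
    (hK : ∀ k, k ≤ K k)
    (hK1 : ∀ k j, j ≤ k → 2 ^ k * ((s : ℝ) ^ j * ξ k) ≤ 2 ^ (K k))
    (hK2 : ∀ k, (3 / 2) ^ k ≤ ξ k * (3 / 2) ^ (K k)) (v0 : V) (ε : ℝ) (hε : 0 < ε)
    (hd : ∀ k : ℕ, ε * (k + 1) ≤ (((Finset.range (k + 1)).filter (fun j => ω k j ≠ v0)).card : ℝ)) (M : ℕ) :
    ∃ u : ℕ → V, Fib s ξ K ω u = univ ∧ u M ≠ v0 := by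
  let _ : MeasurableSpace (ℕ → V) := borel (ℕ → V)
  have _ : BorelSpace (ℕ → V) := ⟨rfl⟩
  let _ : MetricSpace (ℕ → V) := TopologicalSpace.metrizableSpaceMetric (ℕ → V)
  obtain ⟨P, hP, hPi, hPG⟩ := Pool.Agent.W765.KB.kb2 (X := ℕ → V) continuous_sh ω (fun _ => 0)
    (fun k => k + 1) (tendsto_add_atTop_nat 1) (fun k => Nat.succ_pos k)
  -- the bad letters
  have hG : IsOpen {u : ℕ → V | u 0 = v0} :=
    (isOpen_discrete {v0}).preimage (f := fun u : ℕ → V => u 0) (by fun_prop)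
  have hPbad : P {u : ℕ → V | u 0 = v0} ≤ ENNReal.ofReal (1 - ε) := by
    refine hPG _ hG _ (Eventually.of_forall fun k => ?_)
    rw [Pool.Agent.W765.KB.emp_apply hG.measurableSet]
    have h1 : ((Finset.range (k + 1)).filter (fun i => sh^[0 + i] (ω k) ∈ {u : ℕ → V | u 0 = v0})) =
        (Finset.range (k + 1)).filter (fun i => ¬ (ω k i ≠ v0)) := by
      refine Finset.filter_congr fun i _ => ?_
      rw [mem_ofPred_eq, sh_iter, not_not]
      simp
    rw [h1]
    have h2 := Finset.card_filter_add_card_filter_not (s := Finset.range (k + 1)) (fun i => ω k i ≠ v0)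
    rw [Finset.card_range] at h2
    have h3 := hd k
    have h4 : ((((Finset.range (k + 1)).filter (fun i => ¬ (ω k i ≠ v0))).card : ℕ) : ℝ) ≤ (1 - ε) * (k + 1) := by
      have h5 : ((((Finset.range (k + 1)).filter (fun i => ω k i ≠ v0)).card : ℕ) : ℝ) +
          ((((Finset.range (k + 1)).filter (fun i => ¬ (ω k i ≠ v0))).card : ℕ) : ℝ) = k + 1 := by
        exact_mod_cast h2
      linarith
    have h6 : (0 : ℝ) < k + 1 := by positivity
    rw [← ENNReal.div_eq_inv_mul]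
    refine ENNReal.div_le_of_le_mul ?_
    rw [← ENNReal.ofReal_natCast, ← ENNReal.ofReal_natCast (k + 1), ← ENNReal.ofReal_mul']
    · exact ENNReal.ofReal_le_ofReal (by push_cast at h4 ⊢; exact h4)
    · positivity
  have hPbad' : 0 < P {u : ℕ → V | u 0 ≠ v0} := by
    have h1 : {u : ℕ → V | u 0 ≠ v0} = {u : ℕ → V | u 0 = v0}ᶜ := rfl
    rw [h1, prob_compl_eq_one_sub hG.measurableSet]
    rw [tsub_pos_iff_lt]
    refine hPbad.trans_lt ?_
    rw [ENNReal.ofReal_lt_one]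
    linarith
  -- the support
  set S : Set (ℕ → V) := (fun a : St V => a.2) '' (Y s ξ K ω) with hS
  have hSc : IsClosed S := (isClosed_Y.isCompact.image continuous_snd).isClosed
  have hSn : S.Nonempty := (Y_nonempty hK).image _
  have hPS0 : ∀ n : ℕ, P {u | 1 / ((n : ℝ) + 1) < Metric.infDist u S} = 0 := by
    intro n
    have hGo : IsOpen {u | 1 / ((n : ℝ) + 1) < Metric.infDist u S} :=
      isOpen_lt continuous_const (Metric.continuous_infDist_pt S)
    have hD : IsClosed {a : St V | 1 / ((n : ℝ) + 1) ≤ Metric.infDist a.2 S} :=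
      isClosed_le continuous_const ((Metric.continuous_infDist_pt S).comp continuous_snd)
    obtain ⟨m, hm⟩ : ∃ m, ¬ (E s ξ K ω m ∩ {a : St V | 1 / ((n : ℝ) + 1) ≤ Metric.infDist a.2 S}).Nonempty := by
      by_contra hcon
      push Not at hcon
      obtain ⟨a, ha, ha2⟩ := Y_inter hD hcon
      have h1 : Metric.infDist a.2 S = 0 := Metric.infDist_zero_of_mem ⟨a, ha, rfl⟩
      rw [mem_ofPred_eq, h1] at ha2
      have : (0 : ℝ) < 1 / ((n : ℝ) + 1) := by positivity
      linarith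
    refine le_antisymm (ENNReal.le_of_forall_pos_le_add ?_) zero_le
    intro δ hδ _
    rw [zero_add]
    refine hPG _ hGo _ ?_
    have hlim : Tendsto (fun k : ℕ => ((m : ℝ)) / ((k : ℝ) + 1)) atTop (𝓝 0) := by
      have := (tendsto_const_div_atTop_nhds_zero_nat (m : ℝ)).comp (tendsto_add_atTop_nat 1)
      refine this.congr fun k => ?_
      simp
    filter_upwards [eventually_ge_atTop (2 * m), hlim.eventually_le_const (show (0 : ℝ) < δ by exact_mod_cast hδ)]
      with k hk1 hk2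
    rw [Pool.Agent.W765.KB.emp_apply hGo.measurableSet]
    have h1 : ((Finset.range (k + 1)).filter (fun i => sh^[0 + i] (ω k) ∈
        {u | 1 / ((n : ℝ) + 1) < Metric.infDist u S})) ⊆ Finset.Ico (k + 1 - m) (k + 1) := by
      intro i hi
      rw [Finset.mem_filter, Finset.mem_range, mem_ofPred_eq, sh_iter, zero_add] at hi
      rw [Finset.mem_Ico]
      refine ⟨?_, hi.1⟩
      by_contra hlt
      apply hm
      have hKk := hK k
      refine ⟨elt s ξ ω k i m, ⟨k, i, m, by omega, le_rfl, by omega, rfl⟩, ?_⟩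
      exact hi.2.le
    have h2 := Finset.card_le_card h1
    rw [Nat.card_Ico] at h2
    have h3 : ((Finset.range (k + 1)).filter (fun i => sh^[0 + i] (ω k) ∈
        {u | 1 / ((n : ℝ) + 1) < Metric.infDist u S})).card ≤ m := h2.trans (by omega)
    rw [← ENNReal.div_eq_inv_mul]
    refine ENNReal.div_le_of_le_mul ?_
    have h4 : (m : ℝ) ≤ δ * (k + 1) := by
      rwa [div_le_iff₀ (by positivity)] at hk2
    calc ((((Finset.range (k + 1)).filter (fun i => sh^[0 + i] (ω k) ∈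
        {u | 1 / ((n : ℝ) + 1) < Metric.infDist u S})).card : ℕ) : ENNReal) ≤ (m : ENNReal) := by exact_mod_cast h3
      _ = ENNReal.ofReal m := by rw [ENNReal.ofReal_natCast]
      _ ≤ ENNReal.ofReal (δ * (k + 1)) := ENNReal.ofReal_le_ofReal h4
      _ = (δ : ENNReal) * ((k + 1 : ℕ) : ENNReal) := by
        rw [ENNReal.ofReal_mul (by positivity), ENNReal.ofReal_coe_nnreal, ← ENNReal.ofReal_natCast]
        push_cast
        rfl
  have hPS : ∀ᵐ u ∂P, u ∈ S := by
    rw [ae_iff]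
    refine measure_mono_null (t := ⋃ n : ℕ, {u | 1 / ((n : ℝ) + 1) < Metric.infDist u S}) ?_
      (measure_iUnion_null hPS0)
    intro u hu
    have h1 : 0 < Metric.infDist u S := (hSc.notMem_iff_infDist_pos hSn).1 hu
    obtain ⟨n, hn⟩ := exists_nat_one_div_lt h1
    exact mem_iUnion.2 ⟨n, hn⟩
  -- finite or everything
  have hind : MulIndep (3 * c) (2 * c) :=
    mulIndep_of_irrational (by omega) (by omega) (irr c hc)
  have h1 := HS (ℕ → V) P sh hPi (3 * c) (2 * c) (by omega) (by omega) hind (Fib s ξ K ω)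
    (fun u => isClosed_Fib u) hit_Fib (fun u x hx => (Fib_equi hs u x hx).1)
    (fun u x hx => (Fib_equi hs u x hx).2)
  have h2 := fin_torsion hPi (by omega : 2 ≤ 3 * c) (by omega : 2 ≤ 2 * c) hind
    (fun u => isClosed_Fib (s := s) (ξ := ξ) (K := K) (ω := ω) u) hit_Fib (fun u x hx => (Fib_equi hs u x hx).1)
    (fun u x hx => (Fib_equi hs u x hx).2)
  have h3 : ∀ᵐ u ∂P, Fib s ξ K ω u = univ := by
    filter_upwards [h1, h2, hPS] with u k1 k2 k3
    rcases k1 with k1 | k1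
    · exfalso
      obtain ⟨a0, ha0, rfl⟩ := k3
      exact not_finite (by omega) hξ hK hK1 hK2 ha0 k1 (k2 k1)
    · exact k1
  have h4 : 0 < P ((sh^[M]) ⁻¹' {u : ℕ → V | u 0 ≠ v0}) := by
    have h0 : MeasurableSet {u : ℕ → V | u 0 ≠ v0} := hG.measurableSet.compl
    rw [(hPi.iterate M).measure_preimage h0.nullMeasurableSet]
    exact hPbad'
  have h5 : ∃ᵐ u ∂P, u ∈ (sh^[M]) ⁻¹' {u : ℕ → V | u 0 ≠ v0} := by
    rw [frequently_ae_mem_iff]
    exact h4.ne'
  obtain ⟨u, hu1, hu2⟩ := (h5.and_eventually h3).exists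
  refine ⟨u, hu2, ?_⟩
  have h6 : (sh^[M] u) 0 ≠ v0 := hu1
  rw [sh_iter] at h6
  simpa using h6

end

open Classical in
/-- **Density theorem.** -/
theorem density (HS : S_STA) {W : Type} [Finite W] (U : W → Set TT) (hU : ∀ w, IsOpen (U w))
    (hne : ∀ w, (U w).Nonempty) (s c : ℕ) (hc : 1 ≤ c) (hs : s = 2 * c ∨ s = 3 * c) (ε : ℝ) (hε : 0 < ε) :
    ∃ R C : ℕ, 0 < R ∧ ∀ ξ : ℝ, 0 < ξ → ∀ K : ℕ, C ≤ K → 2 ^ C * ξ ≤ 2 ^ K →
      (3 / 2) ^ C ≤ ξ * (3 / 2) ^ K →
      (((Finset.range R).filter (fun j => ∃ w, ∀ n ≤ K, (((s : ℝ) ^ j * ξ * (3 / 2 : ℝ) ^ n : ℝ) : TT) ∉ U w)).card : ℝ)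
        ≤ ε * R := by
  let _ : TopologicalSpace (Option W) := ⊥
  have _ : DiscreteTopology (Option W) := ⟨rfl⟩
  by_contra hcon
  push Not at hcon
  have hcon' := fun k : ℕ => hcon (k + 1) (k * (s + 1)) (Nat.succ_pos k)
  choose ξ hξ K hK hK1 hK2 hbad using hcon'
  set ω : ℕ → ℕ → Option W := fun k j =>
    if h : ∃ w, ∀ n ≤ K k, (((s : ℝ) ^ j * ξ k * (3 / 2 : ℝ) ^ n : ℝ) : TT) ∉ U w then some h.choose else none with hω
  set U' : Option W → Set TT := fun v => match v with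
    | none => ∅
    | some w => U w with hU'
  have hU'o : ∀ v, IsOpen (U' v) := by
    intro v
    cases v with
    | none => exact isOpen_empty
    | some w => exact hU w
  have hbad' : ∀ k j t : ℕ, j ≤ k → t ≤ K k →
      (((s : ℝ) ^ j * ξ k * (3 / 2 : ℝ) ^ t : ℝ) : TT) ∉ U' (ω k j) := by
    intro k j t _ ht
    by_cases h : ∃ w, ∀ n ≤ K k, (((s : ℝ) ^ j * ξ k * (3 / 2 : ℝ) ^ n : ℝ) : TT) ∉ U w
    · have e : ω k j = some h.choose := by simp only [hω]; rw [dif_pos h]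
      rw [e]
      exact h.choose_spec t ht
    · have e : ω k j = none := by simp only [hω]; rw [dif_neg h]
      rw [e]
      exact notMem_empty _
  have hdens : ∀ k : ℕ, ε * (k + 1) ≤ (((Finset.range (k + 1)).filter (fun j => ω k j ≠ none)).card : ℝ) := by
    intro k
    have h1 := (hbad k).le
    have h2 : ((Finset.range (k + 1)).filter (fun j => ω k j ≠ none)) = ((Finset.range (k + 1)).filter
        (fun j => ∃ w, ∀ n ≤ K k, (((s : ℝ) ^ j * ξ k * (3 / 2 : ℝ) ^ n : ℝ) : TT) ∉ U w)) := by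
      refine Finset.filter_congr fun j _ => ?_
      by_cases h : ∃ w, ∀ n ≤ K k, (((s : ℝ) ^ j * ξ k * (3 / 2 : ℝ) ^ n : ℝ) : TT) ∉ U w
      · have e : ω k j = some h.choose := by simp only [hω]; rw [dif_pos h]
        simp [e, h]
      · have e : ω k j = none := by simp only [hω]; rw [dif_neg h]
        simp [e, h]
    rw [h2]
    push_cast at h1
    exact h1
  have hs1 : 1 ≤ s := by omega
  have hKk : ∀ k, k ≤ K k := fun k => le_trans (by nlinarith) (hK k)
  have hK1' : ∀ k j, j ≤ k → 2 ^ k * ((s : ℝ) ^ j * ξ k) ≤ 2 ^ (K k) := by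
    intro k j hj
    refine le_trans ?_ (hK1 k)
    have h1 : (s : ℝ) ≤ 2 ^ s := by
      exact_mod_cast (Nat.lt_two_pow_self (n := s)).le
    have h2 : (s : ℝ) ^ j ≤ 2 ^ (k * s) := by
      calc (s : ℝ) ^ j ≤ (s : ℝ) ^ k := pow_le_pow_right₀ (by exact_mod_cast hs1) hj
        _ ≤ (2 ^ s) ^ k := pow_le_pow_left₀ (by positivity) h1 k
        _ = 2 ^ (k * s) := by rw [← pow_mul, mul_comm]
    have h3 : (2 : ℝ) ^ (k * (s + 1)) = 2 ^ k * 2 ^ (k * s) := by rw [← pow_add]; congr 1; ring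
    rw [h3, mul_assoc]
    have := hξ k
    gcongr
  have hK2' : ∀ k, (3 / 2) ^ k ≤ ξ k * (3 / 2) ^ (K k) := by
    intro k
    refine le_trans ?_ (hK2 k)
    exact pow_le_pow_right₀ (by norm_num) (by nlinarith)
  obtain ⟨r, hr⟩ := visits U hU hne
  choose n hn using hr
  obtain ⟨M, hM⟩ := (Set.finite_range n).bddAbove
  have hM' : ∀ w, n w ≤ M := fun w => hM ⟨w, rfl⟩
  obtain ⟨u, hu1, hu2⟩ := stat (ω := ω) HS hc hs hξ hKk hK1' hK2' (none : Option W) ε hε
    (fun k => by convert hdens k) M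
  obtain ⟨a, ha, haM, ha2⟩ := full hc hs r M u hu1
  obtain ⟨w, hw⟩ := Option.ne_none_iff_exists'.1 hu2
  have h1 := avoid hU'o hbad' ha (n w)
  have h2 : a.2 0 = some w := by rw [ha2]; simpa using hw
  rw [haM _ (hM' w), h2] at h1
  exact h1 (hn w)

end Pool.Agent.Zk45.RS
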