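import Mathlib
import Pool.Agent.Zk45.RS.Sta
import Pool.Agent.Zk63.RS45.Win
import Pool.Agent.Zk78.RS.Rec
import Pool.Agent.Zk96.RS.A1

set_option autoImplicit false

namespace Pool.Agent.Zk45.RS

/-- **Furstenberg's theorem for stationary random closed sets with two equivariances.** -/
theorem sta_final : S_STA :=
  sta (core (Pool.Agent.Zk63.RS45.win Pool.Agent.Zk96.RS.null) Pool.Agent.Zk78.RS.rec)

end Pool.Agent.Zk45.RS
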