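import Mathlib
import Pool.Agent.Zk45.RS.Den3
import Pool.Agent.Zk45.RS.Fin
import Pool.Agent.Zk45.Syn.Words

set_option autoImplicit false

open Filter Topology Set
open Pool.Agent.H847R3.XpXq
open Pool.Agent.Zk45.Syn (arc arc_open arc_nonempty)

namespace Pool.Agent.Zk45.RS

open Classical in
/-- the density statement for words, with a bound for the times -/
theorem wordsD (s c : ℕ) (hc : 1 ≤ c) (hs : s = 2 * c ∨ s = 3 * c) (L : ℕ) (ε : ℝ) (hε : 0 < ε) :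
    ∃ R C : ℕ, 0 < R ∧ ∀ (α : ℝ), 0 < α → ∀ (p : ℤ) (N : ℕ),
      (Nat.count (fun i => ¬ ∀ w : Fin L → Fin 6,
      ∃ n : ℕ, N ≤ n ∧ (n : ℝ) ≤ N + C + max (Real.logb 2 ((6 : ℝ) ^ p * ((3 / 2) ^ N * α)))
        (-Real.logb (3 / 2) ((6 : ℝ) ^ p * ((3 / 2) ^ N * α))) ∧
      (((6 : ℝ) ^ (p - 1) * ((3 / 2) ^ n * ((s : ℝ) ^ i * α)) : ℝ) : TT) ∈ arc w) R : ℝ) ≤ ε * R := by
  obtain ⟨R, C, hR, hC⟩ := density sta_final (fun w : Fin L → Fin 6 => arc w) arc_open arc_nonempty s c hc hs ε hε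
  refine ⟨R, C + 6, hR, fun α hα p N => ?_⟩
  set v : ℝ := (6 : ℝ) ^ p * ((3 / 2) ^ N * α) with hv
  have hv0 : 0 < v := by positivity
  set mx : ℝ := max (Real.logb 2 v) (-Real.logb (3 / 2) v) with hmx
  have hmx0 : 0 ≤ mx := by
    rcases le_total 1 v with h | h
    · exact le_max_of_le_left (Real.logb_nonneg (by norm_num) h)
    · refine le_max_of_le_right ?_
      have := Real.logb_nonpos (by norm_num : (1 : ℝ) < 3 / 2) hv0.le h
      linarith
  set K : ℕ := ⌊((C : ℝ) + 6) + mx⌋₊ with hK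
  have hK0 : 0 ≤ ((C : ℝ) + 6) + mx := by positivity
  have hK1 : (K : ℝ) ≤ ((C : ℝ) + 6) + mx := Nat.floor_le hK0
  have hK2 : ((C : ℝ) + 6) + mx < K + 1 := Nat.lt_floor_add_one _
  have hCK : C ≤ K := by
    have : (C : ℝ) < K + 1 := by linarith
    have : C < K + 1 := by exact_mod_cast this
    omega
  have e1 : (2 : ℝ) ^ C * (v / 6) ≤ 2 ^ K := by
    have h1 : Real.logb 2 v ≤ mx := le_max_left _ _
    have h2 : (C : ℝ) + Real.logb 2 v ≤ K := by linarith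
    have h3 : (2 : ℝ) ^ ((C : ℝ) + Real.logb 2 v) ≤ (2 : ℝ) ^ (K : ℝ) :=
      Real.rpow_le_rpow_of_exponent_le (by norm_num) h2
    rw [Real.rpow_add (by norm_num), Real.rpow_natCast, Real.rpow_natCast,
      Real.rpow_logb (by norm_num) (by norm_num) hv0] at h3
    have h4 : (0 : ℝ) < 2 ^ C := by positivity
    nlinarith
  have e2 : (3 / 2 : ℝ) ^ C ≤ v / 6 * (3 / 2) ^ K := by
    have h1 : -Real.logb (3 / 2) v ≤ mx := le_max_right _ _
    have h2 : (C : ℝ) + 5 ≤ Real.logb (3 / 2) v + K := by linarith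
    have h3 : (3 / 2 : ℝ) ^ ((C : ℝ) + 5) ≤ (3 / 2 : ℝ) ^ (Real.logb (3 / 2) v + K) :=
      Real.rpow_le_rpow_of_exponent_le (by norm_num) h2
    rw [Real.rpow_add (by norm_num), Real.rpow_add (by norm_num), Real.rpow_natCast, Real.rpow_natCast,
      Real.rpow_logb (by norm_num) (by norm_num) hv0,
      show (3 / 2 : ℝ) ^ (5 : ℝ) = (3 / 2) ^ (5 : ℕ) by rw [← Real.rpow_natCast]; norm_num] at h3
    have h4 : (0 : ℝ) < (3 / 2) ^ C := by positivity
    nlinarith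
  have h := hC (v / 6) (by positivity) K hCK e1 e2
  refine le_trans ?_ h
  rw [Nat.count_eq_card_filter_range]
  have hsub : ((Finset.range R).filter (fun i => ¬ ∀ w : Fin L → Fin 6,
      ∃ n : ℕ, N ≤ n ∧ (n : ℝ) ≤ N + ((C + 6 : ℕ) : ℝ) + mx ∧
      (((6 : ℝ) ^ (p - 1) * ((3 / 2) ^ n * ((s : ℝ) ^ i * α)) : ℝ) : TT) ∈ arc w)) ⊆
      ((Finset.range R).filter (fun j => ∃ w : Fin L → Fin 6, ∀ n ≤ K,
        (((s : ℝ) ^ j * (v / 6) * (3 / 2 : ℝ) ^ n : ℝ) : TT) ∉ arc w)) := by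
    intro i hi
    rw [Finset.mem_filter] at hi ⊢
    refine ⟨hi.1, ?_⟩
    by_contra hcon
    apply hi.2
    push Not at hcon
    intro w
    obtain ⟨n, hn, hnw⟩ := hcon w
    refine ⟨N + n, by omega, ?_, ?_⟩
    · have : (n : ℝ) ≤ K := by exact_mod_cast hn
      push_cast
      linarith
    · have e3 : (6 : ℝ) ^ (p - 1) * ((3 / 2) ^ (N + n) * ((s : ℝ) ^ i * α)) = (s : ℝ) ^ i * (v / 6) * (3 / 2) ^ n := by
        rw [hv, zpow_sub_one₀ (by norm_num), pow_add]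
        ring
      rw [e3]
      exact hnw
  exact_mod_cast Finset.card_le_card hsub

open Classical in
/-- infinitely often -/
theorem wordsD_inf (s c : ℕ) (hc : 1 ≤ c) (hs : s = 2 * c ∨ s = 3 * c) (L : ℕ) (ε : ℝ) (hε : 0 < ε) :
    ∃ R : ℕ, 0 < R ∧ ∀ (α : ℝ), 0 < α → ∀ (p : ℤ), (Nat.count (fun i => ¬ ∀ w : Fin L → Fin 6,
      {n : ℕ | (((6 : ℝ) ^ (p - 1) * ((3 / 2) ^ n * ((s : ℝ) ^ i * α)) : ℝ) : TT) ∈ arc w}.Infinite) R : ℝ) ≤
        ε * R := by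
  obtain ⟨R, C, hR, hC⟩ := wordsD s c hc hs L ε hε
  refine ⟨R, hR, fun α hα p => ?_⟩
  set G : ℕ → (Fin L → Fin 6) → Set ℕ := fun i w =>
    {n : ℕ | (((6 : ℝ) ^ (p - 1) * ((3 / 2) ^ n * ((s : ℝ) ^ i * α)) : ℝ) : TT) ∈ arc w} with hG
  obtain ⟨N, hN⟩ : ∃ N : ℕ, ∀ i < R, ∀ w, (G i w).Finite → ∀ n ∈ G i w, n < N := by
    have h1 : (⋃ i ∈ Finset.range R, ⋃ w, ⋃ (_ : (G i w).Finite), G i w).Finite := by
      refine Set.Finite.biUnion (Finset.range R).finite_toSet fun i _ => ?_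
      refine Set.finite_iUnion fun w => ?_
      by_cases h : (G i w).Finite
      · simp [h]
      · simp [h]
    obtain ⟨N, hN⟩ := h1.bddAbove
    refine ⟨N + 1, fun i hi w hw n hn => ?_⟩
    have : n ≤ N := hN (by
      simp only [mem_iUnion, Finset.mem_range]
      exact ⟨i, hi, w, hw, hn⟩)
    omega
  refine le_trans ?_ (hC α hα p N)
  rw [Nat.count_eq_card_filter_range, Nat.count_eq_card_filter_range]
  have hsub : ((Finset.range R).filter (fun i => ¬ ∀ w : Fin L → Fin 6, (G i w).Infinite)) ⊆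
      ((Finset.range R).filter (fun i => ¬ ∀ w : Fin L → Fin 6,
      ∃ n : ℕ, N ≤ n ∧ (n : ℝ) ≤ N + C + max (Real.logb 2 ((6 : ℝ) ^ p * ((3 / 2) ^ N * α)))
        (-Real.logb (3 / 2) ((6 : ℝ) ^ p * ((3 / 2) ^ N * α))) ∧
      (((6 : ℝ) ^ (p - 1) * ((3 / 2) ^ n * ((s : ℝ) ^ i * α)) : ℝ) : TT) ∈ arc w)) := by
    intro i hi
    rw [Finset.mem_filter] at hi ⊢
    refine ⟨hi.1, fun hcon => hi.2 fun w => ?_⟩
    intro hfin
    obtain ⟨n, h1, -, h3⟩ := hcon w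
    have := hN i (Finset.mem_range.1 hi.1) w hfin n h3
    omega
  exact Nat.cast_le.2 (Finset.card_le_card hsub)

lemma count_le {P Q : ℕ → Prop} {hP : DecidablePred P} {hQ : DecidablePred Q} (R : ℕ) (h : ∀ i < R, P i → Q i) :
    (Nat.count P R : ℝ) ≤ (Nat.count Q R : ℝ) := by
  rw [Nat.count_eq_card_filter_range, Nat.count_eq_card_filter_range]
  refine Nat.cast_le.2 (Finset.card_le_card ?_)
  intro i hi
  rw [Finset.mem_filter] at hi ⊢
  exact ⟨hi.1, h i (Finset.mem_range.1 hi.1) hi.2⟩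

lemma count_le_card {P Q : ℕ → Prop} {hP : DecidablePred P} {hQ : DecidablePred Q} (R : ℕ)
    (h : ∀ i < R, P i → Q i) : (Nat.count P R : ℝ) ≤ (((Finset.range R).filter Q).card : ℝ) := by
  rw [← Nat.count_eq_card_filter_range]
  exact count_le R h

/-- Among any `R` consecutive integers at most `ε R` have the property `B`. -/
def Rare (ε : ℝ) (R : ℕ) (B : ℤ → Prop) : Prop :=
  ∀ p : ℤ, (({j : ℤ | p ≤ j ∧ j < p + R ∧ B j}.ncard : ℕ) : ℝ) ≤ ε * R

open Classical in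
lemma ncard_eq (R : ℕ) (B : ℤ → Prop) (p : ℤ) :
    {j : ℤ | p ≤ j ∧ j < p + R ∧ B j}.ncard = Nat.count (fun i : ℕ => B (p + i)) R := by
  rw [Nat.count_eq_card_filter_range]
  have h : {j : ℤ | p ≤ j ∧ j < p + R ∧ B j} =
      (((Finset.range R).filter (fun i : ℕ => B (p + i))).image (fun i : ℕ => p + (i : ℤ)) : Finset ℤ) := by
    ext j
    simp only [mem_ofPred_eq, Finset.coe_image, Finset.coe_filter, Finset.mem_range, mem_image]
    constructor
    · rintro ⟨h1, h2, h3⟩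
      refine ⟨(j - p).toNat, ⟨by omega, ?_⟩, by omega⟩
      have : p + ((j - p).toNat : ℤ) = j := by omega
      rw [this]; exact h3
    · rintro ⟨i, ⟨h1, h2⟩, rfl⟩
      exact ⟨by omega, by omega, h2⟩
  rw [h, Set.ncard_coe_finset, Finset.card_image_of_injective]
  intro a b hab
  simpa using hab

open Classical in
theorem rare_of {δ : ℝ} (hδ : 0 ≤ δ) {R : ℕ} (hR : 0 < R) {B : ℤ → Prop}
    (h : ∀ p : ℤ, (Nat.count (fun i : ℕ => B (p + i)) R : ℝ) ≤ δ * R) {R' : ℕ} (hR' : R ≤ R') :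
    Rare (2 * δ) R' B := by
  intro p
  rw [ncard_eq]
  have key : ∀ Q : ℕ, (Nat.count (fun i : ℕ => B (p + i)) (Q * R) : ℝ) ≤ Q * (δ * R) := by
    intro Q
    induction Q with
    | zero => simp
    | succ Q ih =>
      rw [Nat.succ_mul, Nat.count_add]
      have h1 := h (p + ((Q * R : ℕ) : ℤ))
      have h2 : Nat.count (fun k : ℕ => B (p + ((Q * R + k : ℕ) : ℤ))) R =
          Nat.count (fun i : ℕ => B (p + ((Q * R : ℕ) : ℤ) + i)) R := by
        congr 1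
        funext k
        congr 1
        push_cast
        ring
      push_cast at h1 h2 ⊢
      rw [h2]
      linarith
  have h1 : R' ≤ (R' / R + 1) * R := by
    have := Nat.lt_div_mul_add hR (a := R')
    nlinarith [Nat.div_add_mod R' R, Nat.mod_lt R' hR]
  have h2 : (Nat.count (fun i : ℕ => B (p + i)) R' : ℝ) ≤ (Nat.count (fun i : ℕ => B (p + i)) ((R' / R + 1) * R) : ℝ) := by
    exact_mod_cast Nat.count_monotone _ h1
  refine h2.trans ((key _).trans ?_)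
  have h3 : ((R' / R : ℕ) : ℝ) * R ≤ R' := by exact_mod_cast Nat.div_mul_le_self R' R
  have h4 : (R : ℝ) ≤ R' := by exact_mod_cast hR'
  push_cast
  nlinarith

lemma Rare.mono {ε : ℝ} {R : ℕ} {B B' : ℤ → Prop} (h : Rare ε R B) (hB : ∀ j, B' j → B j) : Rare ε R B' := by
  intro p
  refine le_trans ?_ (h p)
  have : {j : ℤ | p ≤ j ∧ j < p + R ∧ B' j} ⊆ {j : ℤ | p ≤ j ∧ j < p + R ∧ B j} :=
    fun j hj => ⟨hj.1, hj.2.1, hB j hj.2.2⟩
  exact_mod_cast Set.ncard_le_ncard this ((Set.finite_Ico p (p + R)).subset fun j hj => ⟨hj.1, hj.2.1⟩)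

lemma Rare.le {ε ε' : ℝ} {R : ℕ} {B : ℤ → Prop} (h : Rare ε R B) (hε : ε ≤ ε') : Rare ε' R B := by
  intro p
  exact (h p).trans (by gcongr)

/-- finitely many rare properties -/
lemma rare_exists {ε : ℝ} {R k : ℕ} {B : Fin k → ℤ → Prop} (h : ∀ i, Rare (ε / k) R (B i)) (hε : 0 ≤ ε) :
    Rare ε R (fun j => ∃ i, B i j) := by
  intro p
  have h1 : {j : ℤ | p ≤ j ∧ j < p + R ∧ ∃ i, B i j} = ⋃ i ∈ (Finset.univ : Finset (Fin k)),
      {j : ℤ | p ≤ j ∧ j < p + R ∧ B i j} := by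
    ext j
    simp only [mem_ofPred_eq, Finset.mem_univ, iUnion_true, mem_iUnion]
    constructor
    · rintro ⟨a, b, i, hi⟩; exact ⟨i, a, b, hi⟩
    · rintro ⟨i, a, b, hi⟩; exact ⟨a, b, i, hi⟩
  rw [h1]
  have h2 : ((⋃ i ∈ (Finset.univ : Finset (Fin k)), {j : ℤ | p ≤ j ∧ j < p + R ∧ B i j}).ncard : ℝ) ≤
      ∑ i : Fin k, (({j : ℤ | p ≤ j ∧ j < p + R ∧ B i j}.ncard : ℕ) : ℝ) := by
    exact_mod_cast Finset.set_ncard_biUnion_le _ _
  refine h2.trans ?_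
  calc ∑ i : Fin k, (({j : ℤ | p ≤ j ∧ j < p + R ∧ B i j}.ncard : ℕ) : ℝ) ≤ ∑ _i : Fin k, ε / k * R :=
        Finset.sum_le_sum fun i _ => h i p
    _ = k * (ε / k * R) := by simp
    _ ≤ ε * R := by
      rcases Nat.eq_zero_or_pos k with rfl | hk
      · simp; positivity
      · have : (k : ℝ) ≠ 0 := by positivity
        apply le_of_eq
        field_simp

end Pool.Agent.Zk45.RS
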